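import Pool.Agent.H.MP_c605fa_an.A

set_option autoImplicit false
open Polynomial

namespace Pool.Agent.Results.MP_c605fa_an.Max

/-- arc length of the graph over `[-1, 1]` -/
noncomputable def L (P : ℝ[X]) : ℝ := ∫ t in (-1 : ℝ)..1, √(1 + (P.derivative.eval t) ^ 2)

open Pool.Agent.H.MP_c605fa_an in
theorem result (n : ℕ) (x : Fin n → ℝ) (hx : ∀ i, x i ∈ Set.Icc (-1 : ℝ) 1) :
    L (∏ i, (X - C (x i))) ≤ L ((X + 1) ^ n) ∧ L ((X - 1) ^ n) = L ((X + 1) ^ n) ∧
      (2 ≤ n → L (∏ i, (X - C (x i))) = L ((X + 1) ^ n) → (∀ i, x i = 1) ∨ ∀ i, x i = -1) := by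
  have e : ∀ l : List ℝ, l.Perm (List.ofFn x) →
      ∏ i, (X - C (x i)) = (l.map fun x => X - C x).prod := by
    intro l hl
    rw [(hl.map _).prod_eq, List.map_ofFn, List.prod_ofFn]
    rfl
  have hm : ∀ y ∈ List.ofFn x, y ∈ Set.Icc (-1 : ℝ) 1 := by
    intro y hy
    obtain ⟨i, rfl⟩ := List.mem_ofFn.1 hy
    exact hx i
  refine ⟨?_, symm n, fun hn h => ?_⟩
  · have := main _ hm
    rw [List.length_ofFn, ← e _ (List.Perm.refl _)] at this
    exact this
  · by_contra! hc
    obtain ⟨⟨i, hi⟩, ⟨j, hj⟩⟩ := hc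
    obtain ⟨i, j, hij, hi, hj⟩ : ∃ i j, i ≠ j ∧ x i ≠ 1 ∧ x j ≠ -1 := by
      by_cases hij : i = j
      · subst hij
        have : Nontrivial (Fin n) := Fin.nontrivial_iff_two_le.2 hn
        obtain ⟨k, hk⟩ := exists_ne i
        by_cases h1 : x k = 1
        · exact ⟨i, k, hk.symm, hi, by rw [h1]; norm_num⟩
        · exact ⟨k, i, hk, h1, hj⟩
      · exact ⟨i, j, hij, hi, hj⟩
    have p1 : (List.finRange n).Perm (i :: j :: ((List.finRange n).erase i).erase j) :=
      (List.perm_cons_erase (List.mem_finRange i)).trans (List.Perm.cons _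
        (List.perm_cons_erase ((List.mem_erase_of_ne hij.symm).2 (List.mem_finRange j))))
    have p2 := (p1.map x).symm
    rw [← List.ofFn_eq_map, List.map_cons, List.map_cons] at p2
    have h1 := strict _ _ _ (fun y hy => hm y (p2.mem_iff.1 hy)) hi hj
    have h2 := p2.length_eq
    rw [List.length_ofFn, List.length_cons, List.length_cons] at h2
    rw [← e _ p2, show _ + 2 = n from h2] at h1
    exact h1.ne h

end Pool.Agent.Results.MP_c605fa_an.Max
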